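import Pool.Agent.R11.TightTab

/-!
# A gonality-tight graph with gonality five and genus eight

The graph has eight vertices `0, ..., 7` and fifteen edges: `03, 04, 06, 12, 16, 25, 35, 56` once,
`07` and `23` twice and `14` three times.  Its first gonality is `5`, its second gonality is `6`
and its genus is `8`, not `10`; its third gonality is at most `8`, not `10`.
-/

set_option autoImplicit false

namespace Pool.Agent.Results.MP_d208ff_co.GenusEight

open Finset Pool.Agent.R11.Tight

/-- A finite multigraph without loops on the vertex set `V`: `mult u v` is the number of edges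
joining `u` and `v`. -/
structure MultiGraph (V : Type) where
  /-- the number of edges joining two vertices -/
  mult : V → V → ℕ
  /-- edges have no direction -/
  symm : ∀ u v, mult u v = mult v u
  /-- there are no loops -/
  loopless : ∀ v, mult v v = 0

namespace MultiGraph

variable {V : Type} [Fintype V] (G : MultiGraph V)

/-- The graph is connected: the simple graph in which two vertices are adjacent when some edge
joins them is connected. -/
def Connected : Prop := (SimpleGraph.fromRel fun u v => 0 < G.mult u v).Connected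

/-- The number of edges. -/
def numEdges : ℕ := (∑ u, ∑ v, G.mult u v) / 2

/-- The genus `|E| - |V| + 1`. -/
def genus : ℤ := G.numEdges - Fintype.card V + 1

/-- The Laplacian: `lap f v` is the sum of `f v - f u` over all edges joining `v` to a vertex
`u`. -/
def lap (f : V → ℤ) (v : V) : ℤ := ∑ u, (G.mult v u : ℤ) * (f v - f u)

/-- Linear equivalence of divisors: the difference is in the image of the Laplacian. -/
def LinEquiv (D D' : V → ℤ) : Prop := ∃ f : V → ℤ, ∀ v, D' v = D v - G.lap f v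

/-- The divisor `D` has Baker-Norine rank at least `r`: for every effective divisor `E` of degree
`r`, the divisor `D - E` is linearly equivalent to an effective divisor. -/
def RankGe (r : ℕ) (D : V → ℤ) : Prop :=
  ∀ E : V → ℤ, (∀ v, 0 ≤ E v) → ∑ v, E v = r →
    ∃ D' : V → ℤ, (∀ v, 0 ≤ D' v) ∧ G.LinEquiv (fun v => D v - E v) D'

/-- The `r`-th gonality `gon_r(G)`: the least degree of a divisor of rank at least `r`. -/
noncomputable def gon (r : ℕ) : ℕ := sInf {d : ℕ | ∃ D : V → ℤ, ∑ v, D v = d ∧ G.RankGe r D}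

/-- `G` is gonality-tight: `gon_2(G) = gon_1(G) + 1`. -/
def Tight : Prop := G.gon 2 = G.gon 1 + 1

end MultiGraph

/-- The statement of Q1: every gonality-tight graph of first gonality `k` has genus
`k (k - 1) / 2`. -/
def GenusStatement : Prop :=
  ∀ (n : ℕ) (G : MultiGraph (Fin n)), G.Connected → G.Tight → G.genus = ((G.gon 1).choose 2 : ℕ)

/-- The statement of Q2: for every gonality-tight graph, with `k = gon_1(G)` and
`g = k (k - 1) / 2`, one has `gon_r(G) = g + r` for all `r ≥ g`, and `gon_r(G) = l (k + 1) - h` for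
all `1 ≤ r < g`, where `1 ≤ l ≤ k - 2`, `0 ≤ h ≤ l` and `r = l (l + 3) / 2 - h`. -/
def SequenceStatement : Prop :=
  ∀ (n : ℕ) (G : MultiGraph (Fin n)), G.Connected → G.Tight → ∀ r : ℕ, 1 ≤ r →
    ((G.gon 1).choose 2 ≤ r → G.gon r = (G.gon 1).choose 2 + r) ∧
    (r < (G.gon 1).choose 2 → ∀ l h : ℕ, 1 ≤ l → l + 2 ≤ G.gon 1 → h ≤ l →
      2 * (r + h) = l * (l + 3) → G.gon r + h = l * (G.gon 1 + 1))

/-! ### general lemmas -/

section general

variable {V : Type} [Fintype V] [DecidableEq V] (G : MultiGraph V)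

lemma lap_sub (f g : V → ℤ) (v : V) : G.lap (fun u => f u - g u) v = G.lap f v - G.lap g v := by
  unfold MultiGraph.lap
  rw [← Finset.sum_sub_distrib]
  exact Finset.sum_congr rfl fun u _ => by ring

lemma sum_lap (f : V → ℤ) : ∑ v, G.lap f v = 0 := by
  have h1 : ∑ v, G.lap f v = - ∑ v, G.lap f v := by
    conv_lhs => unfold MultiGraph.lap
    rw [Finset.sum_comm, ← Finset.sum_neg_distrib]
    refine Finset.sum_congr rfl fun v _ => ?_
    unfold MultiGraph.lap
    rw [← Finset.sum_neg_distrib]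
    refine Finset.sum_congr rfl fun u _ => ?_
    rw [G.symm u v]
    ring
  linarith

/-- a burning order shows that a divisor is not equivalent to an effective one -/
lemma burn [Nonempty V] (X : V → ℤ) (τ : V → ℕ)
    (h : ∀ w, X w < ∑ u, if τ u < τ w then (G.mult w u : ℤ) else 0) (g : V → ℤ) :
    ∃ w, X w - G.lap g w < 0 := by
  obtain ⟨m, hm⟩ := Finite.exists_max g
  obtain ⟨w, hw, hmin⟩ := Finset.exists_min_image (Finset.univ.filter fun w => ∀ u, g u ≤ g w) τ
    ⟨m, by simpa using hm⟩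
  simp only [mem_filter, mem_univ, true_and] at hw hmin
  refine ⟨w, ?_⟩
  have h1 : (∑ u, if τ u < τ w then (G.mult w u : ℤ) else 0) ≤ G.lap g w := by
    unfold MultiGraph.lap
    refine Finset.sum_le_sum fun u _ => ?_
    have h0 : (0 : ℤ) ≤ G.mult w u := by positivity
    split_ifs with hu
    · have h2 : g u < g w := by
        refine lt_of_le_of_ne (hw u) fun heq => ?_
        have := hmin u fun x => by rw [heq]; exact hw x
        omega
      nlinarith
    · exact mul_nonneg h0 (by linarith [hw u])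
  have := h w
  linarith

/-- one chip at `a` -/
def pt (a : V) : V → ℤ := fun w => if w = a then 1 else 0

lemma sum_pt (a : V) : ∑ v, pt a v = 1 := by simp [pt]

lemma extract (E : V → ℤ) (hE : ∀ v, 0 ≤ E v) (r : ℕ) (hr : ∑ v, E v = (r + 1 : ℕ)) :
    ∃ a, (∀ v, 0 ≤ E v - pt a v) ∧ ∑ v, (E v - pt a v) = r := by
  have h1 : ∃ a, 0 < E a := by
    by_contra hcon
    push Not at hcon
    have := Finset.sum_nonpos fun v (_ : v ∈ (Finset.univ : Finset V)) => hcon v
    rw [hr] at this
    push_cast at this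
    omega
  obtain ⟨a, ha⟩ := h1
  refine ⟨a, fun v => ?_, ?_⟩
  · have := hE v
    unfold pt
    split_ifs with h
    · subst h; omega
    · linarith
  · rw [Finset.sum_sub_distrib, sum_pt, hr]
    push_cast
    ring

lemma eq_zero_of_sum (E : V → ℤ) (hE : ∀ v, 0 ≤ E v) (h : ∑ v, E v = (0 : ℕ)) : ∀ v, E v = 0 := by
  intro v
  have := (Finset.sum_eq_zero_iff_of_nonneg fun v _ => hE v).1 (by simpa using h)
  exact this v (mem_univ v)

lemma three (E : V → ℤ) (hE : ∀ v, 0 ≤ E v) (h : ∑ v, E v = (3 : ℕ)) :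
    ∃ a b c, ∀ v, E v = pt a v + pt b v + pt c v := by
  obtain ⟨a, ha, ha'⟩ := extract E hE 2 h
  obtain ⟨b, hb, hb'⟩ := extract _ ha 1 ha'
  obtain ⟨c, hc, hc'⟩ := extract _ hb 0 hb'
  refine ⟨a, b, c, fun v => ?_⟩
  have := eq_zero_of_sum _ hc hc' v
  linarith

lemma two (E : V → ℤ) (hE : ∀ v, 0 ≤ E v) (h : ∑ v, E v = (2 : ℕ)) :
    ∃ a b, ∀ v, E v = pt a v + pt b v := by
  obtain ⟨a, ha, ha'⟩ := extract E hE 1 h
  obtain ⟨b, hb, hb'⟩ := extract _ ha 0 ha'
  refine ⟨a, b, fun v => ?_⟩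
  have := eq_zero_of_sum _ hb hb' v
  linarith

lemma pt_nonneg (a v : V) : 0 ≤ pt a v := by
  unfold pt
  split_ifs <;> norm_num

/-- removing a chip lowers the rank by at most one -/
lemma rank_sub (r : ℕ) (D : V → ℤ) (h : G.RankGe (r + 1) D) (a : V) :
    G.RankGe r (fun v => D v - pt a v) := by
  intro E hE hs
  obtain ⟨D', hD', f, hf⟩ := h (fun v => pt a v + E v) (fun v => add_nonneg (pt_nonneg a v) (hE v))
    (by rw [Finset.sum_add_distrib, sum_pt, hs]; push_cast; ring)
  exact ⟨D', hD', f, fun v => by rw [hf v]; ring⟩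

end general

/-! ### the graph -/

/-- the matrix of edge multiplicities -/
def mat : Fin 8 → Fin 8 → ℕ :=
  ![![0, 0, 0, 1, 1, 0, 1, 2],
    ![0, 0, 1, 0, 3, 0, 1, 0],
    ![0, 1, 0, 2, 0, 1, 0, 0],
    ![1, 0, 2, 0, 0, 1, 0, 0],
    ![1, 3, 0, 0, 0, 0, 0, 0],
    ![0, 0, 1, 1, 0, 0, 1, 0],
    ![1, 1, 0, 0, 0, 1, 0, 0],
    ![2, 0, 0, 0, 0, 0, 0, 0]]

/-- The graph. -/
def G₈ : MultiGraph (Fin 8) where
  mult := mat
  symm := by decide
  loopless := by decide

lemma mat_eq : ∀ u v : Fin 8, mat u v = mu u v := by decide +kernel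

lemma sum_eq_s8 (g : ℕ → ℤ) : ∑ u : Fin 8, g u = s8 g := by
  rw [Fin.sum_univ_eight]
  rfl

lemma pt_eq (a w : Fin 8) : pt a w = one w a := by
  unfold pt one
  simp only [Fin.ext_iff]

lemma lap_eq (x k : ℕ) (w : Fin 8) :
    G₈.lap (fun u : Fin 8 => (dig x (k + u) : ℤ)) w = lapN x k w := by
  unfold MultiGraph.lap lapN
  rw [← sum_eq_s8]
  refine Finset.sum_congr rfl fun u _ => ?_
  change ((mat w u : ℕ) : ℤ) * _ = _
  rw [mat_eq]

/-- every divisor of rank at least one has degree at least five -/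
theorem lower (D : Fin 8 → ℤ) (hD : G₈.RankGe 1 D) : 5 ≤ ∑ v, D v := by
  by_contra hcon
  push Not at hcon
  set D₁ : Fin 8 → ℤ := fun v => D v + (4 - ∑ v, D v) * pt 0 v with hD₁
  have hsum : ∑ v, D₁ v = 4 := by
    simp only [hD₁]
    rw [Finset.sum_add_distrib, ← Finset.mul_sum, sum_pt]
    ring
  have hrank : ∀ x : Fin 8, ∃ f : Fin 8 → ℤ, ∀ v, 0 ≤ D₁ v - pt x v - G₈.lap f v := by
    intro x
    obtain ⟨D', hD', f, hf⟩ := hD (pt x) (pt_nonneg x) (by rw [sum_pt]; norm_num)
    refine ⟨f, fun v => ?_⟩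
    have h1 := hD' v
    rw [hf v] at h1
    have h2 : 0 ≤ (4 - ∑ v, D v) * pt 0 v := mul_nonneg (by omega) (pt_nonneg 0 v)
    simp only [hD₁]
    linarith
  obtain ⟨f₀, hf₀⟩ := hrank 0
  obtain ⟨a, b, c, habc⟩ := three (fun v => D₁ v - pt 0 v - G₈.lap f₀ v) hf₀ (by
    rw [Finset.sum_sub_distrib, Finset.sum_sub_distrib, hsum, sum_pt, sum_lap]
    norm_num)
  set x := T1.getD (64 * a + 8 * b + c) 0 with hx
  have hv : dig x 0 < 8 := ok1' a b c
  obtain ⟨h, hh⟩ := hrank ⟨dig x 0, hv⟩
  obtain ⟨w, hw⟩ := burn G₈ (fun w => D₁ w - G₈.lap f₀ w - pt ⟨dig x 0, hv⟩ w -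
    G₈.lap (fun u : Fin 8 => (dig x (1 + u) : ℤ)) w) (fun w => dig x (9 + w)) (by
      intro w
      have h1 := ok1 a b c w
      unfold chk1 at h1
      rw [decide_eq_true_eq, ← sum_eq_s8] at h1
      have h2 := habc w
      rw [lap_eq, pt_eq]
      have h3 : D₁ w - G₈.lap f₀ w = one w (0 : Fin 8) + one w a + one w b + one w c := by
        rw [← pt_eq, ← pt_eq, ← pt_eq, ← pt_eq]
        linarith
      rw [h3]
      refine lt_of_lt_of_le h1 (le_of_eq ?_)
      refine Finset.sum_congr rfl fun u _ => ?_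
      change _ = if dig x (9 + u) < dig x (9 + w) then ((mat w u : ℕ) : ℤ) else 0
      rw [mat_eq])
    (fun w => (h w - f₀ w) - (dig x (1 + w) : ℤ))
  rw [lap_sub, lap_sub] at hw
  have := hh w
  linarith

/-- a divisor of degree six and rank at least two -/
theorem rank_two : G₈.RankGe 2 (fun w => D2 w) := by
  intro E hE hs
  obtain ⟨a, b, hab⟩ := two E hE hs
  refine ⟨_, fun w => ?_, fun u : Fin 8 => (dig (T2.getD (8 * a + b) 0) (0 + u) : ℤ), fun w => rfl⟩
  have h1 := ok2 a b w
  unfold chk2 at h1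
  rw [decide_eq_true_eq] at h1
  rw [lap_eq]
  show 0 ≤ D2 w - E w - lapN _ 0 w
  rw [hab w, pt_eq, pt_eq]
  linarith

/-- a divisor of degree eight and rank at least three -/
theorem rank_three : G₈.RankGe 3 (fun w => D3 w) := by
  intro E hE hs
  obtain ⟨a, b, c, hab⟩ := three E hE hs
  refine ⟨_, fun w => ?_, fun u : Fin 8 => (dig (T3.getD (64 * a + 8 * b + c) 0) (0 + u) : ℤ),
    fun w => rfl⟩
  have h1 := ok3 a b c w
  unfold chk3 at h1
  rw [decide_eq_true_eq] at h1
  rw [lap_eq]
  show 0 ≤ D3 w - E w - lapN _ 0 w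
  rw [hab w, pt_eq, pt_eq, pt_eq]
  linarith

lemma deg_D2 : ∑ w : Fin 8, D2 w = 6 := by decide +kernel

lemma deg_D3 : ∑ w : Fin 8, D3 w = 8 := by decide +kernel

theorem gon_one : G₈.gon 1 = 5 := by
  have hmem : 5 ∈ {d : ℕ | ∃ D : Fin 8 → ℤ, ∑ v, D v = d ∧ G₈.RankGe 1 D} := by
    refine ⟨fun v => D2 v - pt 0 v, ?_, rank_sub G₈ 1 _ rank_two 0⟩
    rw [Finset.sum_sub_distrib, sum_pt, deg_D2]
    norm_num
  refine le_antisymm (Nat.sInf_le hmem) (le_csInf ⟨5, hmem⟩ ?_)
  rintro d ⟨D, hD, hr⟩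
  have := lower D hr
  rw [hD] at this
  exact_mod_cast this

theorem gon_two : G₈.gon 2 = 6 := by
  have hmem : 6 ∈ {d : ℕ | ∃ D : Fin 8 → ℤ, ∑ v, D v = d ∧ G₈.RankGe 2 D} :=
    ⟨_, by rw [deg_D2]; norm_num, rank_two⟩
  refine le_antisymm (Nat.sInf_le hmem) (le_csInf ⟨6, hmem⟩ ?_)
  rintro d ⟨D, hD, hr⟩
  have := lower _ (rank_sub G₈ 1 D hr 0)
  rw [Finset.sum_sub_distrib, sum_pt, hD] at this
  have h2 : (6 : ℤ) ≤ d := by linarith
  exact_mod_cast h2

theorem gon_three : G₈.gon 3 ≤ 8 :=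
  Nat.sInf_le ⟨_, by rw [deg_D3]; norm_num, rank_three⟩

theorem genus_eq : G₈.genus = 8 := by
  have h : G₈.numEdges = 15 := by decide +kernel
  unfold MultiGraph.genus
  rw [h]
  simp

theorem connected : G₈.Connected := by
  unfold MultiGraph.Connected
  set H := SimpleGraph.fromRel fun u v => 0 < G₈.mult u v with hH
  have hadj : ∀ u v : Fin 8, u ≠ v → 0 < mat u v → H.Reachable u v := by
    intro u v hne h
    apply SimpleGraph.Adj.reachable
    rw [hH, SimpleGraph.fromRel_adj]
    exact ⟨hne, Or.inl h⟩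
  have h3 : H.Reachable 0 3 := hadj 0 3 (by decide) (by decide)
  have h4 : H.Reachable 0 4 := hadj 0 4 (by decide) (by decide)
  have h6 : H.Reachable 0 6 := hadj 0 6 (by decide) (by decide)
  have h7 : H.Reachable 0 7 := hadj 0 7 (by decide) (by decide)
  have h2 : H.Reachable 0 2 := h3.trans (hadj 3 2 (by decide) (by decide))
  have h1 : H.Reachable 0 1 := h6.trans (hadj 6 1 (by decide) (by decide))
  have h5 : H.Reachable 0 5 := h3.trans (hadj 3 5 (by decide) (by decide))
  have hall : ∀ x : Fin 8, H.Reachable 0 x := by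
    intro x
    fin_cases x
    · exact SimpleGraph.Reachable.refl _
    · exact h1
    · exact h2
    · exact h3
    · exact h4
    · exact h5
    · exact h6
    · exact h7
  rw [SimpleGraph.connected_iff]
  exact ⟨fun x y => (hall x).symm.trans (hall y), ⟨0⟩⟩

/-- There is a gonality-tight graph with first gonality `5`, genus `8` (and not `10`), and third
gonality at most `8` (and not `10`).  So the statements of Q1 and Q2 are both false. -/
theorem result : (∃ G : MultiGraph (Fin 8), G.Connected ∧ G.gon 1 = 5 ∧ G.gon 2 = 6 ∧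
    G.genus = 8 ∧ G.gon 3 ≤ 8) ∧ ¬ GenusStatement ∧ ¬ SequenceStatement := by
  have ht : G₈.Tight := by
    unfold MultiGraph.Tight
    rw [gon_one, gon_two]
  refine ⟨⟨G₈, connected, gon_one, gon_two, genus_eq, gon_three⟩, fun h => ?_, fun h => ?_⟩
  · have h1 := h 8 G₈ connected ht
    rw [genus_eq, gon_one] at h1
    have h2 : (5 : ℕ).choose 2 = 10 := by decide
    rw [h2] at h1
    norm_num at h1
  · have h1 := (h 8 G₈ connected ht 3 (by norm_num)).2
    rw [gon_one] at h1
    have h2 : (5 : ℕ).choose 2 = 10 := by decide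
    have h3 := h1 (by rw [h2]; norm_num) 2 2 (by norm_num) (by norm_num) le_rfl (by norm_num)
    have h4 := gon_three
    omega

end Pool.Agent.Results.MP_d208ff_co.GenusEight
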